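import Pool.Agent.V11307.B2b

set_option autoImplicit false

/-!
# Alternating sums weighted by odd powers of `4k-1`
-/

namespace Pool.Agent.Results.MP_638395_nt.Holds

open Polynomial Finset

/-- `(a)_k = a (a+1) ⋯ (a+k-1)`. -/
def rising (a : ℚ) (k : ℕ) : ℚ := ∏ i ∈ range k, (a + i)

/-- `S_m(N) = ∑_{k=0}^{N} (-1)^k (4k-1)^m (-1/2)_k³/k!³`. -/
def S (m N : ℕ) : ℚ :=
  ∑ k ∈ range (N + 1), (-1) ^ k * (4 * (k : ℚ) - 1) ^ m * rising (-1 / 2) k ^ 3 / (k.factorial : ℚ) ^ 3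

/-- `x ≡ y (mod p^n)` for rationals: `x - y` is zero or has `p`-adic valuation at least `n`. -/
def Cong (p n : ℕ) (x y : ℚ) : Prop := x - y = 0 ∨ (n : ℤ) ≤ padicValRat p (x - y)

open V11307.PA V11307.Q

/-- `(-1/2)_k/k!` -/
def x (k : ℕ) : ℚ := rising (-1 / 2) k / (k.factorial : ℚ)

theorem x_zero : x 0 = 1 := by simp [x, rising]

theorem x_succ (k : ℕ) : x (k + 1) = x k * ((2 * k - 1) / (2 * k + 2)) := by
  have h1 : (k.factorial : ℚ) ≠ 0 := by exact_mod_cast k.factorial_ne_zero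
  have h2 : ((k : ℚ) + 1) ≠ 0 := by positivity
  rw [x, x, rising, prod_range_succ, Nat.factorial_succ, rising]
  push_cast
  field_simp
  ring

theorem S_eq (m N : ℕ) : S m N = ∑ k ∈ range (N + 1), (-1) ^ k * (4 * (k : ℚ) - 1) ^ m * x k ^ 3 := by
  rw [S]
  refine sum_congr rfl fun k _ => ?_
  rw [x, div_pow, mul_div_assoc]

theorem y_eq (k : ℕ) : B2.y k = x k * (1 - 2 * k) := by
  induction k with
  | zero => simp [B2.y, x_zero]
  | succ k ih =>
    have h2 : ((k : ℚ) + 1) ≠ 0 := by positivity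
    rw [B2.y, prod_range_succ, ← B2.y, ih, x_succ]
    push_cast
    field_simp
    ring

theorem x_y (k : ℕ) : x (k + 1) = B2.y (k + 1) - B2.y k := by
  have h2 : ((k : ℚ) + 1) ≠ 0 := by positivity
  rw [y_eq, y_eq, x_succ]
  push_cast
  field_simp
  ring

theorem y_central (k : ℕ) : B2.y k * 4 ^ k = (k.centralBinom : ℚ) := by
  induction k with
  | zero => simp [B2.y]
  | succ k ih =>
    have h := Nat.succ_mul_centralBinom_succ k
    have h3 : ((k : ℚ) + 1) * ((k + 1).centralBinom : ℚ) = 2 * (2 * k + 1) * (k.centralBinom : ℚ) := by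
      exact_mod_cast h
    have h2 : ((k : ℚ) + 1) ≠ 0 := by positivity
    rw [B2.y, prod_range_succ, ← B2.y]
    apply mul_left_cancel₀ h2
    rw [h3, ← ih]
    field_simp
    ring

theorem D_y {p : ℕ} (hp : p.Prime) (hp2 : p ≠ 2) (k : ℕ) : D p 0 (B2.y k) := by
  have h1 : B2.y k = (k.centralBinom : ℤ) * ((2 : ℚ) ^ (2 * k))⁻¹ := by
    have h2 : (2 : ℚ) ^ (2 * k) = 4 ^ k := by rw [pow_mul]; norm_num
    rw [h2, eq_mul_inv_iff_mul_eq₀ (by positivity), y_central]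
    push_cast
    rfl
  rw [h1]
  exact (D.inv_two_pow hp hp2 _).int_mul hp _

theorem D_x {p : ℕ} (hp : p.Prime) (hp2 : p ≠ 2) (k : ℕ) : D p 0 (x k) := by
  cases k with
  | zero => rw [x_zero]; simpa using D.int hp 1
  | succ k => rw [x_y]; exact (D_y hp hp2 _).sub hp (D_y hp hp2 _)

/-- `F_j(k) = (-1)^k k³ (4k-3)^{2j} x_k³` -/
def F (j k : ℕ) : ℚ := (-1) ^ k * k ^ 3 * (4 * k - 3) ^ (2 * j) * x k ^ 3

theorem F_succ (j k : ℕ) :
    F j (k + 1) = -((-1) ^ k * (4 * k + 1) ^ (2 * j) * (2 * k - 1) ^ 3 / 8 * x k ^ 3) := by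
  have h2 : ((k : ℚ) + 1) ≠ 0 := by positivity
  rw [F, x_succ]
  push_cast
  have h3 : (4 * ((k : ℚ) + 1) - 3) = 4 * k + 1 := by ring
  rw [h3, pow_succ]
  generalize ((4 : ℚ) * k + 1) ^ (2 * j) = Z
  field_simp
  ring

/-- the weights `(u-1)³(u+2)^{2j} + (u+1)³(u-2)^{2j}` telescope -/
theorem tele (j N : ℕ) : ∑ k ∈ range (N + 1), (-1) ^ k * x k ^ 3 *
    (((4 * (k : ℚ) - 1) - 1) ^ 3 * ((4 * (k : ℚ) - 1) + 2) ^ (2 * j) +
      ((4 * (k : ℚ) - 1) + 1) ^ 3 * ((4 * (k : ℚ) - 1) - 2) ^ (2 * j)) = -64 * F j (N + 1) := by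
  have h1 : ∀ n, ∑ k ∈ range n, (-1) ^ k * x k ^ 3 *
    (((4 * (k : ℚ) - 1) - 1) ^ 3 * ((4 * (k : ℚ) - 1) + 2) ^ (2 * j) +
      ((4 * (k : ℚ) - 1) + 1) ^ 3 * ((4 * (k : ℚ) - 1) - 2) ^ (2 * j)) = -64 * F j n := by
    intro n
    induction n with
    | zero => simp [F]
    | succ n ih =>
      rw [sum_range_succ, ih, F_succ, F]
      have e1 : (4 * (n : ℚ) - 1) + 2 = 4 * n + 1 := by ring
      have e2 : (4 * (n : ℚ) - 1) - 2 = 4 * n - 3 := by ring
      rw [e1, e2]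
      ring
  exact h1 (N + 1)

theorem base (N : ℕ) : ∑ k ∈ range (N + 1), (-1) ^ k * (4 * k + 1) * B2.y k ^ 3 + S 1 N =
    -((-1) ^ N * (2 * N) * (2 * N - 1) ^ 3 * x N ^ 3) := by
  rw [S_eq, ← sum_add_distrib]
  have h1 : ∀ n, ∑ k ∈ range n, ((-1) ^ k * (4 * (k : ℚ) + 1) * B2.y k ^ 3 +
      (-1) ^ k * (4 * (k : ℚ) - 1) ^ 1 * x k ^ 3) = -((-1) ^ n * n ^ 3 * 16 * (1 - n) * x n ^ 3) := by
    intro n
    induction n with
    | zero => simp
    | succ n ih =>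
      have h2 : ((n : ℚ) + 1) ≠ 0 := by positivity
      rw [sum_range_succ, ih, y_eq, x_succ]
      push_cast
      rw [pow_succ]
      field_simp
      ring
  rw [h1, x_succ]
  have h2 : ((N : ℚ) + 1) ≠ 0 := by positivity
  push_cast
  rw [pow_succ]
  field_simp
  ring

/-- the two truncation points -/
def Pt (p r N : ℕ) : Prop := N = (p ^ r + 1) / 2 ∨ N = p ^ r - 1

theorem D_bd {p r N : ℕ} (hp : p.Prime) (hp2 : p ≠ 2) (hr : 1 ≤ r) (hN : Pt p r N) :
    D p (r + 2) ((2 * N - 1) ^ 3 * x N ^ 3) := by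
  have hodd : Odd p := hp.odd_of_ne_two hp2
  obtain ⟨M, hM⟩ := hodd.pow (n := r)
  rcases hN with hN | hN
  · have h1 : N = M + 1 := by omega
    have h2 : (2 * (N : ℚ) - 1) = (p : ℚ) ^ r := by
      have : ((p ^ r : ℕ) : ℚ) = 2 * M + 1 := by rw [hM]; push_cast; ring
      rw [h1]; push_cast at this ⊢; rw [this]; ring
    rw [h2]
    have h3 := ((D.ppow hp r).pow hp 3).mul hp ((D_x hp hp2 N).pow hp 3)
    exact h3.mono (by omega)
  · -- `2 (N+1) x_{N+1} = (2N-1) x_N`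
    have hpos : 0 < p ^ r := Nat.pow_pos hp.pos
    have h1 : N + 1 = p ^ r := by omega
    have h2 : ((N : ℚ) + 1) = (p : ℚ) ^ r := by
      have : ((N + 1 : ℕ) : ℚ) = ((p ^ r : ℕ) : ℚ) := by rw [h1]
      push_cast at this; exact this
    have h4 : (2 * (N : ℚ) - 1) * x N = 2 * (p : ℚ) ^ r * x (N + 1) := by
      rw [x_succ, ← h2]
      have h2 : ((N : ℚ) + 1) ≠ 0 := by positivity
      field_simp
    rw [← mul_pow, h4, mul_pow, mul_pow]
    have h5 : D p 0 ((2 : ℚ) ^ 3) := by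
      have := D.int hp (2 ^ 3)
      push_cast at this
      exact this
    have h3 := (h5.mul hp ((D.ppow hp r).pow hp 3)).mul hp ((D_x hp hp2 (N + 1)).pow hp 3)
    exact h3.mono (by omega)

theorem D_tele {p r N : ℕ} (hp : p.Prime) (hp2 : p ≠ 2) (hr : 1 ≤ r) (hN : Pt p r N) (j : ℕ) :
    D p (r + 2) (∑ k ∈ range (N + 1), (-1) ^ k * x k ^ 3 *
    ((((4 * (k : ℚ) - 1) - 1) ^ 3 * ((4 * (k : ℚ) - 1) + 2) ^ (2 * j) +
      ((4 * (k : ℚ) - 1) + 1) ^ 3 * ((4 * (k : ℚ) - 1) - 2) ^ (2 * j)) / 2)) := by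
  have h1 := tele j N
  have h2 : ∑ k ∈ range (N + 1), (-1) ^ k * x k ^ 3 *
    ((((4 * (k : ℚ) - 1) - 1) ^ 3 * ((4 * (k : ℚ) - 1) + 2) ^ (2 * j) +
      ((4 * (k : ℚ) - 1) + 1) ^ 3 * ((4 * (k : ℚ) - 1) - 2) ^ (2 * j)) / 2) =
      ((4 * (-1) ^ N * (4 * N + 1) ^ (2 * j) : ℤ) : ℚ) * ((2 * N - 1) ^ 3 * x N ^ 3) := by
    have h3 : ∑ k ∈ range (N + 1), (-1) ^ k * x k ^ 3 *
      ((((4 * (k : ℚ) - 1) - 1) ^ 3 * ((4 * (k : ℚ) - 1) + 2) ^ (2 * j) +
        ((4 * (k : ℚ) - 1) + 1) ^ 3 * ((4 * (k : ℚ) - 1) - 2) ^ (2 * j)) / 2) =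
        (∑ k ∈ range (N + 1), (-1) ^ k * x k ^ 3 *
      (((4 * (k : ℚ) - 1) - 1) ^ 3 * ((4 * (k : ℚ) - 1) + 2) ^ (2 * j) +
        ((4 * (k : ℚ) - 1) + 1) ^ 3 * ((4 * (k : ℚ) - 1) - 2) ^ (2 * j))) / 2 := by
      rw [sum_div]
      exact sum_congr rfl fun k _ => by ring
    rw [h3, h1, F_succ]
    push_cast
    ring
  rw [h2]
  exact (D_bd hp hp2 hr hN).int_mul hp _

/-- the statement for one `m` with constant `c` -/
def P (m : ℕ) (c : ℤ) : Prop := ∀ p : ℕ, p.Prime → p ≠ 2 → ∀ r : ℕ, 1 ≤ r → ∀ N, Pt p r N →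
  D p (r + 2) (S m N - c * ((p : ℚ) ^ r * (-1) ^ ((p ^ r - 1) / 2)))

theorem P_one : P 1 (-1) := by
  intro p hp hp2 r hr N hN
  obtain ⟨b1, b2⟩ := B2.b2 hp hp2 hr
  have h1 := base N
  have hb := D_bd hp hp2 hr hN
  have h3 : S 1 N - ((-1 : ℤ) : ℚ) * ((p : ℚ) ^ r * (-1) ^ ((p ^ r - 1) / 2)) =
      -(∑ k ∈ range (N + 1), (-1) ^ k * (4 * k + 1) * B2.y k ^ 3 - (-1) ^ ((p ^ r - 1) / 2) * (p : ℚ) ^ r)
        - (((-1) ^ N * (2 * N) : ℤ) : ℚ) * ((2 * N - 1) ^ 3 * x N ^ 3) := by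
    rw [← eq_sub_iff_add_eq'] at h1
    rw [h1]
    push_cast
    ring
  rw [h3]
  refine D.sub hp (D.neg ?_) (hb.int_mul hp _)
  have hodd : Odd p := hp.odd_of_ne_two hp2
  obtain ⟨M, hM⟩ := hodd.pow (n := r)
  rcases hN with hN | hN
  · have e1 : N = (p ^ r - 1) / 2 + 1 := by omega
    have e2 : N = M + 1 := by omega
    rw [sum_range_succ]
    have h4 : B2.y N = -((p : ℚ) ^ r) * x N := by
      have : ((p ^ r : ℕ) : ℚ) = 2 * M + 1 := by rw [hM]; push_cast; ring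
      rw [y_eq, e2]
      push_cast at this ⊢
      rw [this]
      ring
    have h5 : ∑ k ∈ range N, (-1) ^ k * (4 * (k : ℚ) + 1) * B2.y k ^ 3 + (-1) ^ N * (4 * (N : ℚ) + 1) * B2.y N ^ 3 -
        (-1) ^ ((p ^ r - 1) / 2) * (p : ℚ) ^ r = (∑ k ∈ range N, (-1) ^ k * (4 * (k : ℚ) + 1) * B2.y k ^ 3 -
        (-1) ^ ((p ^ r - 1) / 2) * (p : ℚ) ^ r) + (((-1) ^ N * (4 * N + 1) : ℤ) : ℚ) * B2.y N ^ 3 := by
      push_cast; ring
    rw [h5]
    refine D.add hp ?_ ?_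
    · rw [e1]; exact b1
    · refine D.int_mul hp _ ?_
      rw [h4]
      exact (((D.ppow hp r).neg.mul hp (D_x hp hp2 N)).pow hp 3).mono (by omega)
  · have hpos : 0 < p ^ r := Nat.pow_pos hp.pos
    have e1 : N + 1 = p ^ r := by omega
    rw [e1]; exact b2

theorem P_step (j : ℕ) (a c : ℕ → ℤ) (s : Finset ℕ)
    (hs : ∀ i ∈ s, P i (c i))
    (ha : ∀ u : ℚ, ((u - 1) ^ 3 * (u + 2) ^ (2 * j) + (u + 1) ^ 3 * (u - 2) ^ (2 * j)) / 2 =
      u ^ (2 * j + 3) + ∑ i ∈ s, (a i : ℚ) * u ^ i) : P (2 * j + 3) (-∑ i ∈ s, a i * c i) := by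
  intro p hp hp2 r hr N hN
  have h1 := D_tele hp hp2 hr hN j
  have h2 : ∑ k ∈ range (N + 1), (-1) ^ k * x k ^ 3 *
    ((((4 * (k : ℚ) - 1) - 1) ^ 3 * ((4 * (k : ℚ) - 1) + 2) ^ (2 * j) +
      ((4 * (k : ℚ) - 1) + 1) ^ 3 * ((4 * (k : ℚ) - 1) - 2) ^ (2 * j)) / 2) =
      S (2 * j + 3) N + ∑ i ∈ s, (a i : ℚ) * S i N := by
    simp only [S_eq, ha, mul_sum]
    rw [sum_comm, ← sum_add_distrib]
    refine sum_congr rfl fun k _ => ?_
    rw [mul_add, mul_sum]
    congr 1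
    · ring
    · exact sum_congr rfl fun i _ => by ring
  rw [h2] at h1
  have h3 : S (2 * j + 3) N - ((-∑ i ∈ s, a i * c i : ℤ) : ℚ) * ((p : ℚ) ^ r * (-1) ^ ((p ^ r - 1) / 2)) =
      (S (2 * j + 3) N + ∑ i ∈ s, (a i : ℚ) * S i N) -
        ∑ i ∈ s, (a i : ℚ) * (S i N - c i * ((p : ℚ) ^ r * (-1) ^ ((p ^ r - 1) / 2))) := by
    push_cast
    simp only [mul_sub, sum_sub_distrib]
    rw [neg_mul, sum_mul]
    have : ∑ i ∈ s, (a i : ℚ) * (c i : ℚ) * ((p : ℚ) ^ r * (-1) ^ ((p ^ r - 1) / 2)) =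
      ∑ i ∈ s, (a i : ℚ) * ((c i : ℚ) * ((p : ℚ) ^ r * (-1) ^ ((p ^ r - 1) / 2))) :=
      sum_congr rfl fun i _ => by ring
    rw [this]
    ring
  rw [h3]
  exact h1.sub hp (D.sum hp fun i hi => D.int_mul hp _ (hs i hi p hp hp2 r hr N hN))

theorem P_all (m : ℕ) : Odd m → ∃ c, P m c := by
  induction m using Nat.strong_induction_on with
  | _ m ih =>
    intro hm
    obtain ⟨i, rfl⟩ := hm
    rcases Nat.eq_zero_or_pos i with rfl | hi
    · exact ⟨-1, P_one⟩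
    obtain ⟨j, rfl⟩ : ∃ j, i = j + 1 := ⟨i - 1, by omega⟩
    have e : 2 * (j + 1) + 1 = 2 * j + 3 := by ring
    rw [e] at ih ⊢
    choose! c hc using ih
    let A : ℤ[X] := (X - C 1) ^ 3 * (X + C 2) ^ (2 * j)
    have hmon : A.Monic := ((monic_X_sub_C (1 : ℤ)).pow 3).mul ((monic_X_add_C (2 : ℤ)).pow (2 * j))
    have hdeg : A.natDegree = 2 * j + 3 := by
      rw [Monic.natDegree_mul ((monic_X_sub_C (1 : ℤ)).pow 3) ((monic_X_add_C (2 : ℤ)).pow (2 * j)),
        Monic.natDegree_pow (monic_X_sub_C (1 : ℤ)), Monic.natDegree_pow (monic_X_add_C (2 : ℤ)),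
        natDegree_X_sub_C, natDegree_X_add_C]
      ring
    have hlead : A.coeff (2 * j + 3) = 1 := by
      rw [← hdeg]; exact hmon
    refine ⟨_, P_step j (fun i => A.coeff i) c ((range (2 * j + 3)).filter Odd) ?_ ?_⟩
    · intro i hi
      rw [mem_filter, mem_range] at hi
      exact hc i hi.1 hi.2
    · intro u
      have h1 : ∀ v : ℚ, (v - 1) ^ 3 * (v + 2) ^ (2 * j) = ∑ i ∈ range (2 * j + 3 + 1), (A.coeff i : ℚ) * v ^ i := by
        intro v
        have h2 : (A.map (Int.castRingHom ℚ)).eval v = (v - 1) ^ 3 * (v + 2) ^ (2 * j) := by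
          simp [A]
        rw [← h2, eval_map, eval₂_eq_sum_range, hdeg]
        rfl
      have h3 : (u + 1) ^ 3 * (u - 2) ^ (2 * j) = -((-u - 1) ^ 3 * (-u + 2) ^ (2 * j)) := by
        have e1 : (-u + 2) ^ (2 * j) = (u - 2) ^ (2 * j) := by
          rw [pow_mul, pow_mul]; congr 1; ring
        rw [e1]; ring
      rw [h3, h1, h1, ← sub_eq_add_neg, ← sum_sub_distrib, sum_range_succ, hlead, sum_filter, add_div,
        sum_div, add_comm]
      have hodd : Odd (2 * j + 3) := ⟨j + 1, by ring⟩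
      congr 1
      · rw [hodd.neg_pow]; push_cast; ring
      · refine sum_congr rfl fun i _ => ?_
        by_cases h : Odd i
        · rw [if_pos h, h.neg_pow]; ring
        · rw [if_neg h, (Nat.not_odd_iff_even.1 h).neg_pow]; ring

theorem P_three : P 3 3 := by
  have := P_step 0 (fun _ => 3) (fun _ => -1) {1} (by
    intro i hi; rw [mem_singleton] at hi; rw [hi]; exact P_one) (by
    intro u; simp; ring)
  simpa using this

theorem P_five : P 5 23 := by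
  have := P_step 1 (fun i => if i = 1 then 8 else -5) (fun i => if i = 1 then -1 else 3) {1, 3} (by
    intro i hi
    simp only [mem_insert, mem_singleton] at hi
    rcases hi with rfl | rfl
    · exact P_one
    · exact P_three) (by
    intro u; simp; ring)
  simpa using this

theorem P_seven : P 7 (-5) := by
  have := P_step 2 (fun i => if i = 1 then 16 else if i = 3 then -16 else 3)
    (fun i => if i = 1 then -1 else if i = 3 then 3 else 23) {1, 3, 5} (by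
    intro i hi
    simp only [mem_insert, mem_singleton] at hi
    rcases hi with rfl | rfl | rfl
    · exact P_one
    · exact P_three
    · exact P_five) (by
    intro u; simp; ring)
  simpa using this

theorem P_nine : P 9 1647 := by
  have := P_step 3 (fun i => if i = 1 then 0 else if i = 3 then 48 else if i = 5 then -72 else 27)
    (fun i => if i = 1 then -1 else if i = 3 then 3 else if i = 5 then 23 else -5) {1, 3, 5, 7} (by
    intro i hi
    simp only [mem_insert, mem_singleton] at hi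
    rcases hi with rfl | rfl | rfl | rfl
    · exact P_one
    · exact P_three
    · exact P_five
    · exact P_seven) (by
    intro u; simp; ring)
  simpa using this

theorem P_eleven : P 11 (-96973) := by
  have := P_step 4 (fun i => if i = 1 then -256 else if i = 3 then 768 else if i = 5 then -672
      else if i = 7 then 96 else 67)
    (fun i => if i = 1 then -1 else if i = 3 then 3 else if i = 5 then 23 else if i = 7 then -5 else 1647)
    {1, 3, 5, 7, 9} (by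
    intro i hi
    simp only [mem_insert, mem_singleton] at hi
    rcases hi with rfl | rfl | rfl | rfl | rfl
    · exact P_one
    · exact P_three
    · exact P_five
    · exact P_seven
    · exact P_nine) (by
    intro u; simp; ring)
  simpa using this

theorem cong_of_D {p n : ℕ} (hp : p.Prime) {x y : ℚ} (h : D p n (x - y)) : Cong p n x y := by
  obtain ⟨u, v, hv, h⟩ := h
  by_cases h0 : x - y = 0
  · exact Or.inl h0
  right
  have : Fact p.Prime := ⟨hp⟩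
  rw [h] at h0 ⊢
  have hv0 : (v : ℚ) ≠ 0 := ne_of_not_dvd hv
  have hu0 : u ≠ 0 := by rintro rfl; simp at h0
  have hu0' : (u : ℚ) ≠ 0 := by exact_mod_cast hu0
  have hp0 : (p : ℚ) ≠ 0 := by exact_mod_cast hp.ne_zero
  rw [padicValRat.mul (pow_ne_zero _ hp0) (div_ne_zero hu0' hv0), padicValRat.pow,
    padicValRat.self hp.one_lt, padicValRat.div hu0' hv0, padicValRat.of_int, padicValRat.of_int,
    padicValInt.eq_zero_of_not_dvd hv]
  push_cast
  have : (0 : ℤ) ≤ padicValInt p u := by positivity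
  linarith

theorem sign {p : ℕ} (hp : p.Prime) (hp2 : p ≠ 2) (r : ℕ) :
    (-1 : ℚ) ^ ((p ^ r - 1) / 2) = (-1) ^ ((p - 1) * r / 2) := by
  have hodd : Odd p := hp.odd_of_ne_two hp2
  obtain ⟨h, hh⟩ := hodd
  have e1 : (p - 1) * r / 2 = h * r := by
    have : (p - 1) * r = 2 * (h * r) := by
      have : p - 1 = 2 * h := by omega
      rw [this]; ring
    omega
  rw [e1]
  have h2 : ∃ t, p ^ r = 2 * t + 1 ∧ (-1 : ℚ) ^ t = (-1) ^ (h * r) := by
    induction r with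
    | zero => exact ⟨0, by simp⟩
    | succ r ih =>
      obtain ⟨t, ht, hs⟩ := ih (by
        have : (p - 1) * r = 2 * (h * r) := by
          have : p - 1 = 2 * h := by omega
          rw [this]; ring
        omega)
      refine ⟨t * p + h, ?_, ?_⟩
      · rw [pow_succ, ht, add_mul, one_mul, hh]; ring
      · rw [pow_add, mul_comm t p, pow_mul, (show (-1 : ℚ) ^ p = -1 from by
          rw [hh]; exact Odd.neg_one_pow ⟨h, rfl⟩), hs, mul_add, mul_one, pow_add]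
  obtain ⟨t, ht, hs⟩ := h2
  have e2 : (p ^ r - 1) / 2 = t := by omega
  rw [e2, hs]

/-- The full statement, with the conjectured values of the constants. -/
theorem result : ∃ c : ℕ → ℤ,
    (c 1 = -1 ∧ c 3 = 3 ∧ c 5 = 23 ∧ c 7 = -5 ∧ c 9 = 1647 ∧ c 11 = -96973) ∧
    ∀ m : ℕ, Odd m → ∀ p : ℕ, p.Prime → p ≠ 2 → ∀ r : ℕ, 1 ≤ r →
      Cong p (r + 2) (S m ((p ^ r + 1) / 2)) (c m * (p : ℚ) ^ r * (-1) ^ ((p - 1) * r / 2)) ∧
      Cong p (r + 2) (S m (p ^ r - 1)) (c m * (p : ℚ) ^ r * (-1) ^ ((p - 1) * r / 2)) := by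
  have h := P_all
  choose! c0 hc0 using h
  let c : ℕ → ℤ := fun m => if m = 1 then -1 else if m = 3 then 3 else if m = 5 then 23
    else if m = 7 then -5 else if m = 9 then 1647 else if m = 11 then -96973 else c0 m
  have hc : ∀ m, Odd m → P m (c m) := by
    intro m hm
    simp only [c]
    split_ifs with h1 h3 h5 h7 h9 h11
    · rw [h1]; exact P_one
    · rw [h3]; exact P_three
    · rw [h5]; exact P_five
    · rw [h7]; exact P_seven
    · rw [h9]; exact P_nine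
    · rw [h11]; exact P_eleven
    · exact hc0 m hm
  refine ⟨c, ⟨rfl, rfl, rfl, rfl, rfl, rfl⟩, ?_⟩
  intro m hm p hp hp2 r hr
  have h1 := hc m hm p hp hp2 r hr
  rw [sign hp hp2 r] at h1
  constructor
  · refine cong_of_D hp ?_
    rw [mul_assoc]
    exact h1 _ (Or.inl rfl)
  · refine cong_of_D hp ?_
    rw [mul_assoc]
    exact h1 _ (Or.inr rfl)

end Pool.Agent.Results.MP_638395_nt.Holds
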